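import Pool.Agent.N115.JS.Stm2
import Pool.Agent.W602.GT.SConst
import Pool.Agent.W602.GT.Lam
import Pool.Agent.W602.GT.Circ
import Pool.Agent.W308.PG.YLOC
import Pool.Agent.W762.PG.PRES
import Pool.Agent.W240.PG.Frame
import Pool.Agent.W419.PG.DIVR

/-!
# JS/7: unirational varieties are special

The lemmas `powT`, `special_of_noTensors`, `tensor_const`, `noTensors_of_rational` are copied from
helper216's files `Pool/Agent/Y216/SV/Tns.lean` and `Not.lean` (copied too in
`Pool/Agent/Y192/KC/Mum.lean`), to keep the imports small.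
-/

set_option autoImplicit false
set_option linter.unusedSectionVars false

open FF Pool.Agent.W603.LV Pool.Agent.W602.GT Pool.Agent.TH710.SP IntermediateField

namespace Pool.Agent.N170.JS

variable {k : Type} [Field k] {w : ℕ} {K : Type} [Field K] [Algebra k K]

/-- `K` is a field of rational functions: it is generated by finitely many algebraically
independent elements. -/
def Rational (k K : Type) [Field k] [Field K] [Algebra k K] : Prop :=
  ∃ (σ : Type) (_ : Finite σ) (t : σ → K), AlgebraicIndependent k t ∧
    IntermediateField.adjoin k (Set.range t) = ⊤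

/-- a power of an alternating form, as a tensor -/
def powT {p : ℕ} (θ : AlternatingMap K (Derivation k K K) K (Fin p)) (M : ℕ) (g : K) :
    MultilinearMap K (fun _ : Fin (M * p) => Derivation k K K) K where
  toFun D := g * ∏ a : Fin M, θ (fun i => D (finProdFinEquiv (a, i)))
  map_update_add' := by
    intro _ D j x x'
    obtain ⟨⟨a0, i0⟩, rfl⟩ := finProdFinEquiv.surjective j
    have h1 : ∀ z, ∏ a : Fin M, θ (fun i => Function.update D (finProdFinEquiv (a0, i0)) z
        (finProdFinEquiv (a, i))) =
        θ (Function.update (fun i => D (finProdFinEquiv (a0, i))) i0 z) *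
          ∏ a ∈ Finset.univ.erase a0, θ (fun i => D (finProdFinEquiv (a, i))) := by
      intro z
      rw [← Finset.mul_prod_erase Finset.univ _ (Finset.mem_univ a0)]
      congr 1
      · congr 1
        funext i
        by_cases hi : i = i0
        · rw [hi, Function.update_self, Function.update_self]
        · rw [Function.update_of_ne hi, Function.update_of_ne]
          intro h2
          have h3 := finProdFinEquiv.injective h2
          exact hi (Prod.ext_iff.1 h3).2
      · refine Finset.prod_congr rfl fun a ha => ?_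
        congr 1
        funext i
        rw [Function.update_of_ne]
        intro h2
        have h3 := finProdFinEquiv.injective h2
        exact Finset.ne_of_mem_erase ha (Prod.ext_iff.1 h3).1
    rw [h1, h1, h1, θ.map_update_add]
    ring
  map_update_smul' := by
    intro _ D j c x
    obtain ⟨⟨a0, i0⟩, rfl⟩ := finProdFinEquiv.surjective j
    have h1 : ∀ z, ∏ a : Fin M, θ (fun i => Function.update D (finProdFinEquiv (a0, i0)) z
        (finProdFinEquiv (a, i))) =
        θ (Function.update (fun i => D (finProdFinEquiv (a0, i))) i0 z) *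
          ∏ a ∈ Finset.univ.erase a0, θ (fun i => D (finProdFinEquiv (a, i))) := by
      intro z
      rw [← Finset.mul_prod_erase Finset.univ _ (Finset.mem_univ a0)]
      congr 1
      · congr 1
        funext i
        by_cases hi : i = i0
        · rw [hi, Function.update_self, Function.update_self]
        · rw [Function.update_of_ne hi, Function.update_of_ne]
          intro h2
          have h3 := finProdFinEquiv.injective h2
          exact hi (Prod.ext_iff.1 h3).2
      · refine Finset.prod_congr rfl fun a ha => ?_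
        congr 1
        funext i
        rw [Function.update_of_ne]
        intro h2
        have h3 := finProdFinEquiv.injective h2
        exact Finset.ne_of_mem_erase ha (Prod.ext_iff.1 h3).1
    rw [h1, h1, θ.map_update_smul]
    simp only [smul_eq_mul]
    ring

theorem powT_apply {p : ℕ} (θ : AlternatingMap K (Derivation k K K) K (Fin p)) (M : ℕ) (g : K)
    (D : Fin (M * p) → Derivation k K K) :
    powT θ M g D = g * ∏ a : Fin M, θ (fun i => D (finProdFinEquiv (a, i))) := rfl

/-- **Bogomolov sheaves give tensor differentials.** -/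
theorem special_of_noTensors (hs : ∀ B, NoTensors k K w B) :
    Special k K w (fun _ => False) := by
  classical
  rintro p hp ⟨θ, hθ, M, hM, f, -, hreg, hf0, -⟩
  have h1 := hs (M * p) (M * p) (Nat.mul_pos hM hp) le_rfl (powT θ M (f 0)) (by
    intro P hPd D hD
    rw [powT_apply]
    have h2 : ∀ a : Fin M, P.Reg (f 0 * θ (fun i => D (finProdFinEquiv (a, i))) ^ M) :=
      fun a => hreg P hPd (fun h => h) _ (fun i => hD _) 0
    by_cases hz : ∃ a : Fin M, θ (fun i => D (finProdFinEquiv (a, i))) = 0
    · obtain ⟨a, ha⟩ := hz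
      rw [Finset.prod_eq_zero (Finset.mem_univ a) ha, mul_zero]
      exact Or.inl rfl
    · push Not at hz
      have hpr : ∏ a : Fin M, θ (fun i => D (finProdFinEquiv (a, i))) ≠ 0 :=
        Finset.prod_ne_zero_iff.2 fun a _ => hz a
      right
      rw [P.ord_mul hf0 hpr, ord_prod' P _ _ fun a _ => hz a]
      have h3 : ∀ a : Fin M, 0 ≤ P.ord (f 0) +
          M * P.ord (θ (fun i => D (finProdFinEquiv (a, i)))) := by
        intro a
        rcases h2 a with h4 | h4
        · exact absurd h4 (mul_ne_zero hf0 (pow_ne_zero _ (hz a)))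
        · rwa [P.ord_mul hf0 (pow_ne_zero _ (hz a)), P.ord_pow] at h4
      have h5 : (0 : ℤ) ≤ ∑ a : Fin M, (P.ord (f 0) +
          M * P.ord (θ (fun i => D (finProdFinEquiv (a, i))))) :=
        Finset.sum_nonneg fun a _ => h3 a
      rw [Finset.sum_add_distrib, ← Finset.mul_sum, Finset.sum_const, Finset.card_univ,
        Fintype.card_fin, nsmul_eq_mul, ← mul_add] at h5
      exact nonneg_of_mul_nonneg_right h5 (by exact_mod_cast hM))
  apply hθ
  ext D
  have h2 := congrArg (fun ω => ω (fun j => D (finProdFinEquiv.symm j).2)) h1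
  simp only [powT_apply, Equiv.symm_apply_apply, Finset.prod_const, Finset.card_univ,
    Fintype.card_fin, zero_apply] at h2
  simpa using (eq_zero_of_pow_eq_zero ((mul_eq_zero.1 h2).resolve_left hf0))

/-- the values of a tensor differential on a frame are constants -/
theorem tensor_const [CharZero k] [IsAlgClosed k] (σ : Fin w → K)
    (hσ : IsTranscendenceBasis k σ) (htop : IntermediateField.adjoin k (Set.range σ) = ⊤) {r : ℕ}
    (ω : MultilinearMap K (fun _ : Fin r => Derivation k K K) K)
    (hω : ∀ P : Place k K, Divisorial w P → ∀ D : Fin r → Derivation k K K,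
      (∀ j, DerReg P (D j)) → P.Reg (ω D))
    (δ : Fin w → Derivation k K K) (hδ : ∀ l m, δ l (σ m) = if m = l then σ m else 0)
    (hcomm : ∀ l m z, δ l (δ m z) = δ m (δ l z))
    (hspan : ∀ D : Derivation k K K, D = ∑ l, (D (σ l) / σ l) • δ l) (I : Fin r → Fin w) :
    ∃ c : k, ω (fun i => δ (I i)) = algebraMap k K c := by
  classical
  have htr : Algebra.trdeg k K = w := by
    have h1 := hσ.cardinalMk_eq_trdeg
    rw [Cardinal.mk_fin] at h1
    exact h1.symm
  have hσ0 : ∀ l, σ l ≠ 0 := fun l => hσ.1.ne_zero l
  have hδtop : ∀ l, (consts (δ l))⟮σ l⟯ = ⊤ := by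
    intro l
    have h1 : ((consts (δ l))⟮σ l⟯).restrictScalars k = ⊤ := by
      rw [eq_top_iff, ← htop, IntermediateField.adjoin_le_iff]
      rintro _ ⟨m, rfl⟩
      by_cases hm : m = l
      · rw [hm]
        exact IntermediateField.mem_adjoin_simple_self _ _
      · have h2 : δ l (σ m) = 0 := by rw [hδ, if_neg hm]
        exact ((consts (δ l))⟮σ l⟯).algebraMap_mem (⟨σ m, h2⟩ : consts (δ l))
    rw [eq_top_iff]
    intro x _
    have h2 : x ∈ ((consts (δ l))⟮σ l⟯).restrictScalars k := by
      rw [h1]; exact IntermediateField.mem_top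
    exact h2
  have h1 : ∀ l, δ l (ω (fun i => δ (I i))) = 0 := by
    intro l
    refine spec_const htr (Bd := fun _ => False) (δ l) (hσ0 l) (by rw [hδ, if_pos rfl])
      (hδtop l) (fun _ _ _ h => h) (fun i => δ (I i)) (fun i z => (hcomm _ _ _)) ?_ ?_
    · intro P hdiv hD
      refine hω P hdiv _ fun j => ?_
      intro f hf
      rcases eq_or_ne f 0 with rfl | hf0
      · rw [map_zero]
        exact Or.inl rfl
      · have h2 := hD j f
        have h3 : δ (I j) f = δ (I j) f / f * f := by field_simp
        rw [h3]
        exact P.reg_mul h2 hf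
    · intro P hdiv _ hD
      exact hω P hdiv _ hD
  obtain ⟨lam, hlam⟩ := exists_lam k w
  obtain ⟨D0, hD0⟩ := exists_der σ hσ (fun j => algebraMap k K (lam j) * σ j)
  refine const_of_der σ hσ lam hlam D0 hD0 ?_
  have h0 : ∀ (t : Finset (Fin w)) (c : Fin w → K) (z : K),
      (∑ l ∈ t, c l • δ l) z = ∑ l ∈ t, c l * δ l z := by
    intro t c z
    induction t using Finset.induction_on with
    | empty => simp
    | insert l t hl ih =>
      rw [Finset.sum_insert hl, Finset.sum_insert hl, Derivation.add_apply, ih]
      rfl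
  rw [hspan D0, h0]
  exact Finset.sum_eq_zero fun l _ => by rw [h1 l, mul_zero]

/-- **Rational varieties have no tensor differentials.** -/
theorem noTensors_of_rational [CharZero k] [IsAlgClosed k] (hdim : Algebra.trdeg k K = w)
    (h : Rational k K) (B : ℕ) : NoTensors k K w B := by
  classical
  obtain ⟨τ, hτ, σ', hind, htop⟩ := h
  have hbasis : IsTranscendenceBasis k σ' := by
    rw [hind.isTranscendenceBasis_iff_isAlgebraic]
    apply alg_adjoin
    rw [htop]
    exact ⟨fun x => isAlgebraic_algebraMap (A := K) (⟨x, trivial⟩ : (⊤ : IntermediateField k K))⟩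
  obtain ⟨w', ⟨φ⟩⟩ := Finite.exists_equiv_fin τ
  let σ : Fin w' → K := σ' ∘ φ.symm
  have hσ : IsTranscendenceBasis k σ := hbasis.comp_equiv φ.symm
  obtain rfl : w' = w := by
    have h1 := hσ.cardinalMk_eq_trdeg
    rw [Cardinal.mk_fin, hdim] at h1
    exact_mod_cast h1
  have hσtop : IntermediateField.adjoin k (Set.range σ) = ⊤ := by
    have h1 : Set.range σ = Set.range σ' := by
      ext x
      constructor
      · rintro ⟨b, rfl⟩
        exact ⟨φ.symm b, rfl⟩
      · rintro ⟨b, rfl⟩
        exact ⟨φ b, by simp [σ]⟩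
    rw [h1, htop]
  -- the shifted basis
  let σ1 : Fin w' → K := fun l => σ l - 1
  have hσ1top : IntermediateField.adjoin k (Set.range σ1) = ⊤ := by
    rw [eq_top_iff, ← hσtop, IntermediateField.adjoin_le_iff]
    rintro _ ⟨l, rfl⟩
    have h1 : σ l = σ1 l + 1 := by simp [σ1]
    rw [h1]
    exact add_mem (IntermediateField.subset_adjoin k _ ⟨l, rfl⟩) (one_mem _)
  have hσ1 : IsTranscendenceBasis k σ1 := by
    have h2 : Algebra.IsAlgebraic (Algebra.adjoin k (Set.range σ1)) K := by
      rw [← IntermediateField.isAlgebraic_adjoin_iff_top, hσ1top]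
      infer_instance
    exact Algebra.IsAlgebraic.isTranscendenceBasis_of_le_trdeg_of_finite k σ1 (by
      rw [Cardinal.mk_fin, hdim])
  have hσ0 : ∀ l, σ l ≠ 0 := fun l => hσ.1.ne_zero l
  have hσ10 : ∀ l, σ1 l ≠ 0 := fun l => hσ1.1.ne_zero l
  obtain ⟨δ, hδ, hcomm, hspan⟩ := exists_frame σ hσ
  obtain ⟨δ1, hδ1, hcomm1, hspan1⟩ := exists_frame σ1 hσ1
  have hδδ : ∀ l, δ1 l = (σ1 l / σ l) • δ l := by
    intro l
    apply der_ext σ hσ
    intro q
    have h1 : δ1 l (σ q) = δ1 l (σ1 q) := by
      have h2 : σ q = σ1 q + 1 := by simp [σ1]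
      rw [h2, map_add, Derivation.map_one_eq_zero, add_zero]
    rw [h1, hδ1, Derivation.smul_apply, hδ, smul_eq_mul]
    split_ifs with h3
    · rw [h3]
      have := hσ0 l
      field_simp
    · rw [mul_zero]
  intro r hr _ ω hω
  have hzero : ∀ I : Fin r → Fin w', ω (fun i => δ (I i)) = 0 := by
    intro I
    obtain ⟨c, hc⟩ := tensor_const σ hσ hσtop ω hω δ hδ hcomm hspan I
    obtain ⟨c1, hc1⟩ := tensor_const σ1 hσ1 hσ1top ω hω δ1 hδ1 hcomm1 hspan1 I
    have h1 : (fun i => δ1 (I i)) = fun i => (σ1 (I i) / σ (I i)) • δ (I i) :=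
      funext fun i => hδδ _
    rw [h1, ω.map_smul_univ, hc, smul_eq_mul, Finset.prod_div_distrib] at hc1
    have hp : (∏ i, σ (I i)) ≠ 0 := Finset.prod_ne_zero_iff.2 fun i _ => hσ0 _
    have h2 : (∏ i, σ1 (I i)) * algebraMap k K c = algebraMap k K c1 * ∏ i, σ (I i) := by
      rw [← hc1]
      field_simp
    let P : MvPolynomial (Fin w') k :=
      (∏ i, (MvPolynomial.X (I i) - 1)) * MvPolynomial.C c -
        MvPolynomial.C c1 * ∏ i, MvPolynomial.X (I i)
    have hP : MvPolynomial.aeval σ P = 0 := by
      simp only [P, map_sub, map_mul, map_prod, MvPolynomial.aeval_X, MvPolynomial.aeval_C,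
        map_one]
      rw [sub_eq_zero]
      exact h2
    have hP0 : P = 0 := (injective_iff_map_eq_zero _).1 hσ.1 P hP
    have h3 := congrArg (MvPolynomial.eval fun _ => (1 : k)) hP0
    have h4 := congrArg (MvPolynomial.eval fun _ => (2 : k)) hP0
    simp only [P, map_sub, map_mul, map_prod, MvPolynomial.eval_X, MvPolynomial.eval_C,
      map_one, map_zero, sub_self, Finset.prod_const, Finset.card_univ, Fintype.card_fin,
      one_pow, mul_one] at h3 h4
    rw [zero_pow (by omega), zero_mul, zero_sub, neg_eq_zero] at h3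
    rw [h3, zero_mul, sub_zero] at h4
    have h5 : (2 : k) - 1 = 1 := by norm_num
    rw [h5, one_pow, one_mul] at h4
    rw [hc, h4, map_zero]
  ext D
  have h1 : D = fun i => ∑ l, (D i (σ l) / σ l) • δ l := by
    funext i
    exact hspan (D i)
  rw [h1]
  have h2 := ω.map_sum (fun i l => (D i (σ l) / σ l) • δ l)
  rw [h2]
  refine Finset.sum_eq_zero fun I _ => ?_
  rw [MultilinearMap.map_smul_univ, hzero I, smul_zero]

/-! ### Tensor differentials on a subfield -/

section down

theorem reg_sum (P : Place k K) {ι : Type*} (s : Finset ι) (f : ι → K) (h : ∀ i ∈ s, P.Reg (f i)) :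
    P.Reg (∑ i ∈ s, f i) := P.O.sum_mem h

theorem reg_prod (P : Place k K) {ι : Type*} (s : Finset ι) (f : ι → K) (h : ∀ i ∈ s, P.Reg (f i)) :
    P.Reg (∏ i ∈ s, f i) := P.O.prod_mem h

/-- evaluation of a derivation at a function -/
def evd (z : K) : Derivation k K K →ₗ[K] K where
  toFun D := D z
  map_add' _ _ := rfl
  map_smul' _ _ := rfl

/-- the value of a tensor in terms of a frame -/
theorem expand_tensor [CharZero k] {d r : ℕ} (y : Fin d → K) (E : Fin d → Derivation k K K)
    (hy : IsTranscendenceBasis k y) (hE : ∀ i j, E i (y j) = if i = j then 1 else 0)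
    (ω : MultilinearMap K (fun _ : Fin r => Derivation k K K) K) (D : Fin r → Derivation k K K) :
    ω D = ∑ I : Fin r → Fin d, (∏ i, D i (y (I i))) * ω (fun i => E (I i)) := by
  have h1 : D = fun i => ∑ l, D i (y l) • E l :=
    funext fun i => Pool.Agent.W308.PG.YLOC.expandK y E hy hE (D i)
  conv_lhs => rw [h1]
  rw [ω.map_sum]
  refine Finset.sum_congr rfl fun I _ => ?_
  rw [MultilinearMap.map_smul_univ, smul_eq_mul]

variable [CharZero k] {L : Type} [Field L] [Algebra k L] [Algebra L K] [IsScalarTower k L K]

/-- the tensor on the big field given by the values of a tensor on a frame -/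
noncomputable def up {d r : ℕ} (y : Fin d → L) (E : Fin d → Derivation k L L)
    (ω : MultilinearMap L (fun _ : Fin r => Derivation k L L) L) :
    MultilinearMap K (fun _ : Fin r => Derivation k K K) K :=
  ∑ I : Fin r → Fin d, algebraMap L K (ω fun i => E (I i)) •
    (MultilinearMap.mkPiAlgebra K (Fin r) K).compLinearMap
      (fun i => evd (k := k) (algebraMap L K (y (I i))))

theorem up_apply {d r : ℕ} (y : Fin d → L) (E : Fin d → Derivation k L L)
    (ω : MultilinearMap L (fun _ : Fin r => Derivation k L L) L) (D : Fin r → Derivation k K K) :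
    up (K := K) y E ω D = ∑ I : Fin r → Fin d, algebraMap L K (ω fun i => E (I i)) *
      ∏ i, D i (algebraMap L K (y (I i))) := by
  unfold up
  rw [sum_apply]
  refine Finset.sum_congr rfl fun I _ => ?_
  rw [smul_apply, MultilinearMap.compLinearMap_apply,
    MultilinearMap.mkPiAlgebra_apply, smul_eq_mul]
  rfl

/-- it does not depend on the frame -/
theorem up_frame {d r : ℕ} {y y' : Fin d → L} {E E' : Fin d → Derivation k L L}
    (hy : IsTranscendenceBasis k y) (hE : ∀ i j, E i (y j) = if i = j then 1 else 0)
    (hy' : IsTranscendenceBasis k y') (hE' : ∀ i j, E' i (y' j) = if i = j then 1 else 0)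
    (ω : MultilinearMap L (fun _ : Fin r => Derivation k L L) L) (D : Fin r → Derivation k K K) :
    up (K := K) y E ω D = up (K := K) y' E' ω D := by
  rw [up_apply, up_apply]
  have h1 : ∀ J : Fin r → Fin d, algebraMap L K (ω fun i => E' (J i)) =
      ∑ I : Fin r → Fin d, (∏ i, algebraMap L K (E' (J i) (y (I i)))) *
        algebraMap L K (ω fun i => E (I i)) := by
    intro J
    rw [expand_tensor y E hy hE ω (fun i => E' (J i)), map_sum]
    refine Finset.sum_congr rfl fun I _ => ?_
    rw [map_mul, map_prod]
  have h2 : ∀ I : Fin r → Fin d, ∏ i, D i (algebraMap L K (y (I i))) =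
      ∑ J : Fin r → Fin d, ∏ i, (algebraMap L K (E' (J i) (y (I i))) *
        D i (algebraMap L K (y' (J i)))) := by
    intro I
    have h3 : ∀ i, D i (algebraMap L K (y (I i))) =
        ∑ c, algebraMap L K (E' c (y (I i))) * D i (algebraMap L K (y' c)) := fun i =>
      Pool.Agent.W308.PG.YLOC.expand y' E' hy' hE' (D i) (y (I i))
    rw [Finset.prod_congr rfl fun i _ => h3 i, Finset.prod_univ_sum, Fintype.piFinset_univ]
  rw [Finset.sum_congr rfl fun I _ => by rw [h2 I, Finset.mul_sum], Finset.sum_comm]
  refine Finset.sum_congr rfl fun J _ => ?_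
  rw [h1 J, Finset.sum_mul]
  refine Finset.sum_congr rfl fun I _ => ?_
  rw [Finset.prod_mul_distrib]
  ring

theorem noTensors_down {B : ℕ} (hL : Algebra.trdeg k L = w) (hK : Algebra.trdeg k K = w)
    (hfin : ∀ y : Fin w → L, IsTranscendenceBasis k y →
      FiniteDimensional (IntermediateField.adjoin k (Set.range y)) L)
    (h : NoTensors k K w B) : NoTensors k L w B := by
  classical
  intro r hr hrB ω hω
  obtain ⟨x, hx⟩ : ∃ x : Fin w → L, IsTranscendenceBasis k x := by
    obtain ⟨s, hs⟩ := exists_isTranscendenceBasis k L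
    have h1 := hs.cardinalMk_eq_trdeg
    rw [hL] at h1
    have h2 : Nonempty (Fin w ≃ s) := by
      have h3 : Cardinal.mk (Fin w) = Cardinal.mk s := by
        rw [Cardinal.mk_fin]
        exact h1.symm
      exact Cardinal.eq.1 h3
    obtain ⟨e⟩ := h2
    exact ⟨fun i => (e i : L), hs.comp_equiv e⟩
  have hE : ∀ i : Fin w, ∃ E : Derivation k L L, ∀ j, E (x j) = if i = j then 1 else 0 :=
    fun i => Pool.Agent.W602.GT.exists_der x hx _
  choose E hE using hE
  have hreg : ∀ P : Place k K, Divisorial w P → ∀ D : Fin r → Derivation k K K,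
      (∀ j, DerReg P (D j)) → P.Reg (up (K := K) x E ω D) := by
    intro P hP D hD
    by_cases htriv : ∃ f : L, P.ord (algebraMap L K f) ≠ 0
    · obtain ⟨e, u, hu⟩ := exists_over (K := L) P htriv
      have hdiv : Divisorial w u :=
        Pool.Agent.W419.PG.main k L K w w u P e hL hK hu hP
      obtain ⟨y', E', i0, hy', hE', -, hyr, hpres⟩ :=
        Pool.Agent.W240.PG.Frame.main Pool.Agent.W762.PG.main k L w hL hfin u hdiv
      have hregL : ∀ f : L, u.Reg f → P.Reg (algebraMap L K f) := by
        intro f hf
        rcases hf with hf | hf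
        · left; rw [hf, map_zero]
        · right
          rw [hu.2]
          exact mul_nonneg (by positivity) hf
      rw [up_frame hx hE hy' hE' ω D, up_apply]
      refine reg_sum P _ _ fun I _ => P.reg_mul (hregL _ (hω u hdiv _ fun j => hpres _))
        (reg_prod P _ _ fun i _ => hD i _ (hregL _ (hyr _)))
    · push Not at htriv
      rw [up_apply]
      exact reg_sum P _ _ fun I _ => P.reg_mul (Or.inr (htriv _).ge)
        (reg_prod P _ _ fun i _ => hD i _ (Or.inr (htriv _).ge))
  have h0 := h r hr hrB _ hreg
  have hxK : IsTranscendenceBasis k (fun i => algebraMap L K (x i)) := by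
    have h1 : AlgebraicIndependent k (fun i => algebraMap L K (x i)) :=
      hx.1.map' (f := IsScalarTower.toAlgHom k L K) (algebraMap L K).injective
    exact h1.isTranscendenceBasis_of_trdeg_le_of_finite (by rw [Cardinal.mk_fin, hK])
  have hF : ∀ i : Fin w, ∃ F : Derivation k K K, ∀ j, F (algebraMap L K (x j)) =
      if i = j then 1 else 0 := fun i => Pool.Agent.W602.GT.exists_der _ hxK _
  choose F hF using hF
  have hzero : ∀ J : Fin r → Fin w, ω (fun i => E (J i)) = 0 := by
    intro J
    have h1 := congrArg (fun η => η fun i => F (J i)) h0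
    simp only [up_apply] at h1
    rw [Finset.sum_eq_single J] at h1
    · have h2 : ∏ i, F (J i) (algebraMap L K (x (J i))) = 1 :=
        Finset.prod_eq_one fun i _ => by rw [hF, if_pos rfl]
      rw [h2, mul_one] at h1
      exact (map_eq_zero _).1 h1
    · intro I _ hI
      obtain ⟨i, hi⟩ := Function.ne_iff.1 hI
      rw [Finset.prod_eq_zero (Finset.mem_univ i), mul_zero]
      rw [hF, if_neg (Ne.symm hi)]
    · intro h3
      exact absurd (Finset.mem_univ J) h3
  ext D
  rw [expand_tensor x E hx hE ω D]
  exact Finset.sum_eq_zero fun I _ => by rw [hzero I, mul_zero]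

end down

/-- a subfield of a finitely generated field, with the same transcendence degree, is finitely
generated -/
theorem fd_sub [CharZero k] {L : Type} [Field L] [Algebra k L] [Algebra L K] [IsScalarTower k L K]
    (hL : Algebra.trdeg k L = w) (hK : Algebra.trdeg k K = w) {S : Set K} (hS : S.Finite)
    (htop : IntermediateField.adjoin k S = ⊤) (y : Fin w → L) (hy : IsTranscendenceBasis k y) :
    FiniteDimensional (IntermediateField.adjoin k (Set.range y)) L := by
  have h1 : Algebra.IsAlgebraic L K := by
    have h2 := _root_.trdeg_add_eq k L (A := K)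
    rw [hL, hK] at h2
    have h3 : Algebra.trdeg L K = 0 := by
      have h4 : Algebra.trdeg L K ≤ w := by
        rw [← h2]
        exact self_le_add_left _ _
      obtain ⟨m, hm⟩ := Cardinal.lt_aleph0.1 (h4.trans_lt (Cardinal.natCast_lt_aleph0))
      rw [hm] at h2 ⊢
      have h5 : w + m = w := by exact_mod_cast h2
      have h6 : m = 0 := by omega
      rw [h6, Nat.cast_zero]
    exact _root_.trdeg_eq_zero_iff.1 h3
  set F := IntermediateField.adjoin k (Set.range y) with hF
  have h2 : Algebra.IsAlgebraic F L := hy.isAlgebraic_field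
  have h3 : Algebra.IsAlgebraic F K := Algebra.IsAlgebraic.trans F L K
  have hfin : Finite S := hS.to_subtype
  have h4 : FiniteDimensional F (IntermediateField.adjoin F S) :=
    IntermediateField.finiteDimensional_adjoin fun x _ => (h3.isAlgebraic x).isIntegral
  have h5 : IntermediateField.adjoin F S = ⊤ := by
    have h6 : (IntermediateField.adjoin k S : IntermediateField k K) ≤
        (IntermediateField.adjoin F S).restrictScalars k := by
      rw [IntermediateField.adjoin_le_iff]
      exact IntermediateField.subset_adjoin _ _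
    rw [eq_top_iff]
    intro x _
    apply h6
    rw [htop]
    exact IntermediateField.mem_top
  rw [h5] at h4
  have h6 : FiniteDimensional F K := LinearEquiv.finiteDimensional
    (IntermediateField.topEquiv (F := F) (E := K)).toLinearEquiv
  exact FiniteDimensional.of_injective (IsScalarTower.toAlgHom F L K).toLinearMap
    (algebraMap L K).injective

/-- **Unirational varieties are special.** -/
theorem unirSpecial : Pool.Agent.N115.JS.UnirSpecial := by
  intro L _ _ w hL ⟨φ⟩
  classical
  let K := FractionRing (MvPolynomial (Fin w) ℂ)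
  let _ : Algebra L K := φ.toRingHom.toAlgebra
  have hst : IsScalarTower ℂ L K := IsScalarTower.of_algebraMap_eq fun c => (φ.commutes c).symm
  let σ : Fin w → K := fun l => algebraMap (MvPolynomial (Fin w) ℂ) K (MvPolynomial.X l)
  have hind : AlgebraicIndependent ℂ σ :=
    (MvPolynomial.algebraicIndependent_X (Fin w) ℂ).map'
      (f := IsScalarTower.toAlgHom ℂ (MvPolynomial (Fin w) ℂ) K)
      (IsFractionRing.injective (MvPolynomial (Fin w) ℂ) K)
  have htop : IntermediateField.adjoin ℂ (Set.range σ) = ⊤ := by
    rw [eq_top_iff]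
    intro z _
    have h1 : ∀ P : MvPolynomial (Fin w) ℂ, algebraMap (MvPolynomial (Fin w) ℂ) K P ∈
        IntermediateField.adjoin ℂ (Set.range σ) := by
      intro P
      induction P using MvPolynomial.induction_on with
      | C a =>
        exact (IntermediateField.adjoin ℂ (Set.range σ)).algebraMap_mem a
      | add p q hp hq =>
        rw [map_add]
        exact add_mem hp hq
      | mul_X p i hp =>
        rw [map_mul]
        exact mul_mem hp (IntermediateField.subset_adjoin ℂ _ ⟨i, rfl⟩)
    obtain ⟨a, b, -, rfl⟩ := IsFractionRing.div_surjective (A := MvPolynomial (Fin w) ℂ) z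
    exact div_mem (h1 a) (h1 b)
  have hbasis : IsTranscendenceBasis ℂ σ := by
    rw [hind.isTranscendenceBasis_iff_isAlgebraic]
    apply alg_adjoin
    rw [htop]
    exact ⟨fun x => isAlgebraic_algebraMap (A := K) (⟨x, trivial⟩ : (⊤ : IntermediateField ℂ K))⟩
  have hK : Algebra.trdeg ℂ K = w := by
    have h1 := hbasis.cardinalMk_eq_trdeg
    rw [Cardinal.mk_fin] at h1
    exact h1.symm
  refine special_of_noTensors fun B => ?_
  exact noTensors_down (K := K) hL hK
    (fun y hy => fd_sub (K := K) hL hK (Set.finite_range σ) htop y hy)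
    (noTensors_of_rational hK ⟨Fin w, inferInstance, σ, hind, htop⟩ B)

end Pool.Agent.N170.JS
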